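import Mathlib
import Pool.Agent.X314.Balls2

/-!
# MP_c8d2d2_an, Q1: the cyclic arrangement of three types of charged balls minimises the energy

Sketch.  An admissible matrix is a sum of matrices `u uᵀ` with `u₁ + u₂ + u₃ = 0`, and for such a
matrix `2 U = ∑_a ω_a (M_a + u_a²/4) - (∑_a ω_a T_a)²`, where the walk `S_k = u_{i_1} + ... + u_{i_k}`
has steps with midpoints `t_k = (S_{k-1} + S_k)/2`, and `T_a`, `M_a` are the means of `t_k`, `t_k²` over
the balls of type `a`.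
* Telescoping `S_k²` and `S_k³` gives two identities between the `T_a` and `M_a`.
* Pairing the steps of type `a` with the steps of type `b` on the same level of the counter
  `#a - #b` gives `|t - t'| ≥ |u_l|/2` for the third type `l`, hence
  `(√V_a + √V_b)² + (T_a - T_b)² ≥ u_l²/4`, where `V_a = M_a - T_a²`.
* The inequality then follows by algebra.
-/

set_option autoImplicit false
set_option linter.unusedSectionVars false

open Finset

namespace Pool.Agent.Results.MP_c8d2d2_an.Cyclic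

/-- the periodic Green function `G(x,y) = |x-y|²/2 - |x-y|/2 + 1/12` -/
noncomputable def G (x y : ℝ) : ℝ := |x - y| ^ 2 / 2 - |x - y| / 2 + 1 / 12

/-- the centres `x_0 = 0`, `x_{k+1} = x_k + (ω_{i_k} + ω_{i_{k+1}}) / (2n)` -/
noncomputable def pos (n : ℕ) (ω : Fin 3 → ℝ) (i : ℕ → Fin 3) : ℕ → ℝ
  | 0 => 0
  | k + 1 => pos n ω i k + (ω (i k) + ω (i (k + 1))) / (2 * n)

/-- the energy of the sequence `i_1, ..., i_{3n}` -/
noncomputable def U (n : ℕ) (ω : Fin 3 → ℝ) (f : Matrix (Fin 3) (Fin 3) ℝ) (i : ℕ → Fin 3) : ℝ :=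
  1 / 2 * ∑ k ∈ Icc 1 (3 * n), ∑ m ∈ Icc 1 (3 * n),
    f (i k) (i m) * G (pos n ω i k) (pos n ω i m)

/-- `i_1, ..., i_{3n}` is an arrangement (each type occurs exactly `n` times), and `i_0 = i_{3n}` -/
def IsArrangement (n : ℕ) (i : ℕ → Fin 3) : Prop :=
  i 0 = i (3 * n) ∧ ∀ a : Fin 3, ((Icc 1 (3 * n)).filter (fun k => i k = a)).card = n

/-- the cyclic arrangement `i_k = k mod 3` (the type `3` is the element `0` of `Fin 3`) -/
def cyc (k : ℕ) : Fin 3 := ⟨k % 3, Nat.mod_lt k (by norm_num)⟩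

lemma sum_Icc_shift {A : Type*} [AddCommMonoid A] (N : ℕ) (F : ℕ → A) :
    ∑ k ∈ Icc 1 N, F k = ∑ k ∈ range N, F (k + 1) := by
  induction N with
  | zero => simp
  | succ N ih => rw [Finset.sum_Icc_succ_top (by omega), ih, Finset.sum_range_succ]

section energy

variable (q y : ℕ → ℝ)

/-- energy of a neutral charged sequence at increasing positions -/
lemma energy_one (x : ℕ → ℝ) (hx : ∀ j, x j ≤ x (j + 1)) (N : ℕ) :
    ∑ k ∈ range N, ∑ m ∈ range N, q k * q m * |x (k + 1) - x (m + 1)|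
      = 2 * ((∑ j ∈ range N, q j) * (∑ j ∈ range N, (x (j + 1) - x j) * ∑ l ∈ range j, q l)
        - ∑ j ∈ range N, (x (j + 1) - x j) * (∑ l ∈ range j, q l) ^ 2)
    ∧ ∑ k ∈ range N, q k * x (k + 1) = (∑ j ∈ range N, q j) * x N
        - ∑ j ∈ range N, (x (j + 1) - x j) * ∑ l ∈ range j, q l := by
  have hmono : Monotone x := monotone_nat_of_le_succ hx
  induction N with
  | zero => simp
  | succ N ih =>
    obtain ⟨ih1, ih2⟩ := ih
    have h2 : ∑ k ∈ range (N + 1), q k * x (k + 1) = (∑ j ∈ range (N + 1), q j) * x (N + 1)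
        - ∑ j ∈ range (N + 1), (x (j + 1) - x j) * ∑ l ∈ range j, q l := by
      rw [Finset.sum_range_succ, ih2, Finset.sum_range_succ, Finset.sum_range_succ]
      ring
    refine ⟨?_, h2⟩
    have e1 : ∑ k ∈ range (N + 1), ∑ m ∈ range (N + 1), q k * q m * |x (k + 1) - x (m + 1)|
        = ∑ k ∈ range N, ∑ m ∈ range N, q k * q m * |x (k + 1) - x (m + 1)|
          + 2 * ∑ k ∈ range N, q k * q N * (x (N + 1) - x (k + 1)) := by
      rw [Finset.sum_range_succ]
      have e2 : ∀ k ∈ range N, ∑ m ∈ range (N + 1), q k * q m * |x (k + 1) - x (m + 1)|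
          = ∑ m ∈ range N, q k * q m * |x (k + 1) - x (m + 1)|
            + q k * q N * (x (N + 1) - x (k + 1)) := by
        intro k hk
        rw [Finset.sum_range_succ, abs_sub_comm (x (k + 1)) (x (N + 1)),
          abs_of_nonneg (sub_nonneg.mpr (hmono (by have := Finset.mem_range.mp hk; omega)))]
      rw [Finset.sum_congr rfl e2, Finset.sum_add_distrib]
      have e3 : ∑ m ∈ range (N + 1), q N * q m * |x (N + 1) - x (m + 1)|
          = ∑ k ∈ range N, q k * q N * (x (N + 1) - x (k + 1)) := by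
        rw [Finset.sum_range_succ, sub_self, abs_zero, mul_zero, add_zero]
        refine Finset.sum_congr rfl fun k hk => ?_
        rw [abs_of_nonneg (sub_nonneg.mpr (hmono (by have := Finset.mem_range.mp hk; omega)))]
        ring
      rw [e3]
      ring
    have e4 : ∑ k ∈ range N, q k * q N * (x (N + 1) - x (k + 1))
        = q N * ((∑ j ∈ range N, q j) * x (N + 1) - ∑ k ∈ range N, q k * x (k + 1)) := by
      rw [Finset.sum_mul, ← Finset.sum_sub_distrib, Finset.mul_sum]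
      refine Finset.sum_congr rfl fun k _ => ?_
      ring
    rw [e1, ih1, e4, ih2, Finset.sum_range_succ (fun j => q j),
      Finset.sum_range_succ (fun j => (x (j + 1) - x j) * ∑ l ∈ range j, q l),
      Finset.sum_range_succ (fun j => (x (j + 1) - x j) * (∑ l ∈ range j, q l) ^ 2)]
    ring

lemma energy_two (x : ℕ → ℝ) (hx : ∀ j, x j ≤ x (j + 1)) (N : ℕ) (hq : ∑ j ∈ range N, q j = 0) :
    ∑ k ∈ range N, ∑ m ∈ range N, q k * q m * G (x (k + 1)) (x (m + 1))
      = ∑ j ∈ range N, (x (j + 1) - x j) * (∑ l ∈ range j, q l) ^ 2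
        - (∑ j ∈ range N, (x (j + 1) - x j) * ∑ l ∈ range j, q l) ^ 2 := by
  obtain ⟨h1, h2⟩ := energy_one q x hx N
  rw [hq, zero_mul, zero_sub] at h1 h2
  have e1 : ∀ k ∈ range N, ∑ m ∈ range N, q k * q m * G (x (k + 1)) (x (m + 1))
      = q k * x (k + 1) ^ 2 / 2 * (∑ m ∈ range N, q m) - (q k * x (k + 1)) * (∑ m ∈ range N, q m * x (m + 1))
        + q k / 2 * (∑ m ∈ range N, q m * x (m + 1) ^ 2)
        - 1 / 2 * (∑ m ∈ range N, q k * q m * |x (k + 1) - x (m + 1)|)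
        + q k / 12 * (∑ m ∈ range N, q m) := by
    intro k _
    rw [Finset.mul_sum, Finset.mul_sum, Finset.mul_sum, Finset.mul_sum, Finset.mul_sum,
      ← Finset.sum_sub_distrib, ← Finset.sum_add_distrib, ← Finset.sum_sub_distrib,
      ← Finset.sum_add_distrib]
    refine Finset.sum_congr rfl fun m _ => ?_
    rw [G, sq_abs]
    ring
  rw [Finset.sum_congr rfl e1]
  simp only [hq, mul_zero, zero_sub, add_zero]
  rw [Finset.sum_sub_distrib, Finset.sum_add_distrib, ← Finset.mul_sum, h1,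
    ← Finset.sum_mul, ← Finset.sum_div, hq, Finset.sum_neg_distrib, ← Finset.sum_mul, h2]
  ring

end energy

open Pool.Agent.X314.Balls

/-- The energy of the walk. -/
lemma energy_walk (n : ℕ) (hn : 0 < n) (ω : Fin 3 → ℝ) (hω : ∀ a, 0 < ω a) (i : ℕ → Fin 3)
    (u : Fin 3 → ℝ) (hu : ∑ a, u a = 0)
    (hcnt : ∀ a, cnt (fun k => i (k + 1)) a (3 * n) = n) :
    ∑ k ∈ Icc 1 (3 * n), ∑ m ∈ Icc 1 (3 * n), u (i k) * u (i m) * G (pos n ω i k) (pos n ω i m)
      = (∑ k ∈ range (3 * n), ω (i (k + 1)) * (tm (fun k => i (k + 1)) u k ^ 2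
          + u (i (k + 1)) ^ 2 / 4)) / (n : ℝ)
        - ((∑ k ∈ range (3 * n), ω (i (k + 1)) * tm (fun k => i (k + 1)) u k) / (n : ℝ)) ^ 2 := by
  have hn0 : (0 : ℝ) < n := by exact_mod_cast hn
  have hSN := S_N (fun k => i (k + 1)) u (3 * n) n hcnt hu
  have hstep : ∀ j, pos n ω i (j + 1) - pos n ω i j = (ω (i j) + ω (i (j + 1))) / (2 * n) := by
    intro j
    rw [pos]
    ring
  have hmono : ∀ j, pos n ω i j ≤ pos n ω i (j + 1) := by
    intro j
    have h1 := hstep j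
    have h2 := hω (i j)
    have h3 := hω (i (j + 1))
    have h4 : 0 < (ω (i j) + ω (i (j + 1))) / (2 * n) := by positivity
    linarith
  have e0 : ∑ k ∈ Icc 1 (3 * n), ∑ m ∈ Icc 1 (3 * n),
      u (i k) * u (i m) * G (pos n ω i k) (pos n ω i m)
      = ∑ k ∈ range (3 * n), ∑ m ∈ range (3 * n),
        u (i (k + 1)) * u (i (m + 1)) * G (pos n ω i (k + 1)) (pos n ω i (m + 1)) := by
    rw [sum_Icc_shift]
    refine Finset.sum_congr rfl fun k _ => ?_
    rw [sum_Icc_shift]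
  rw [e0, energy_two (fun k => u (i (k + 1))) (pos n ω i) hmono (3 * n) hSN]
  -- rewrite the two sums
  have hS : ∀ j, ∑ l ∈ range j, u (i (l + 1)) = S (fun k => i (k + 1)) u j := fun j => rfl
  simp only [hS, hstep]
  set s := S (fun k => i (k + 1)) u with hs
  have hs0 : s 0 = 0 := by simp [hs, S]
  have hss : ∀ k, s (k + 1) = s k + u (i (k + 1)) := fun k => S_succ (fun k => i (k + 1)) u k
  have htm : ∀ k, tm (fun k => i (k + 1)) u k = s k + u (i (k + 1)) / 2 := fun k => rfl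
  have hE : ∑ j ∈ range (3 * n), (ω (i j) + ω (i (j + 1))) / (2 * (n : ℝ)) * s j ^ 2
      = (∑ k ∈ range (3 * n), ω (i (k + 1)) * (tm (fun k => i (k + 1)) u k ^ 2
          + u (i (k + 1)) ^ 2 / 4)) / (n : ℝ) := by
    have h1 := Finset.sum_range_sub (fun k => ω (i k) * s k ^ 2) (3 * n)
    rw [hSN, hs0] at h1
    rw [Finset.sum_div]
    have h2 : ∀ j ∈ range (3 * n), (ω (i j) + ω (i (j + 1))) / (2 * (n : ℝ)) * s j ^ 2
        = ω (i (j + 1)) * (tm (fun k => i (k + 1)) u j ^ 2 + u (i (j + 1)) ^ 2 / 4) / (n : ℝ)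
          - 1 / (2 * (n : ℝ)) * (ω (i (j + 1)) * s (j + 1) ^ 2 - ω (i j) * s j ^ 2) := by
      intro j _
      rw [htm, hss]
      field_simp
      ring
    rw [Finset.sum_congr rfl h2, Finset.sum_sub_distrib, ← Finset.mul_sum, h1]
    ring
  have hW : ∑ j ∈ range (3 * n), (ω (i j) + ω (i (j + 1))) / (2 * (n : ℝ)) * s j
      = (∑ k ∈ range (3 * n), ω (i (k + 1)) * tm (fun k => i (k + 1)) u k) / (n : ℝ) := by
    have h1 := Finset.sum_range_sub (fun k => ω (i k) * s k) (3 * n)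
    rw [hSN, hs0] at h1
    rw [Finset.sum_div]
    have h2 : ∀ j ∈ range (3 * n), (ω (i j) + ω (i (j + 1))) / (2 * (n : ℝ)) * s j
        = ω (i (j + 1)) * tm (fun k => i (k + 1)) u j / (n : ℝ)
          - 1 / (2 * (n : ℝ)) * (ω (i (j + 1)) * s (j + 1) - ω (i j) * s j) := by
      intro j _
      rw [htm, hss]
      field_simp
      ring
    rw [Finset.sum_congr rfl h2, Finset.sum_sub_distrib, ← Finset.mul_sum, h1]
    ring
  rw [hE, hW]

lemma cnt_of_arr (n : ℕ) (i : ℕ → Fin 3) (h : IsArrangement n i) (a : Fin 3) :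
    cnt (fun k => i (k + 1)) a (3 * n) = n := by
  have h1 := h.2 a
  rw [Finset.card_filter, sum_Icc_shift, ← Finset.card_filter] at h1
  unfold cnt
  exact_mod_cast h1

/-- the lower bound for one charge vector -/
lemma bound_one (n : ℕ) (hn : 0 < n) (ω : Fin 3 → ℝ) (hω : ∀ a, 0 < ω a) (hω1 : ∑ a, ω a = 1)
    (i : ℕ → Fin 3) (hi : IsArrangement n i) (u : Fin 3 → ℝ) (hu : ∑ a, u a = 0) :
    K u ω ≤ ∑ k ∈ Icc 1 (3 * n), ∑ m ∈ Icc 1 (3 * n),
      u (i k) * u (i m) * G (pos n ω i k) (pos n ω i m) := by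
  have hcnt := cnt_of_arr n i hi
  rw [energy_walk n hn ω hω i u hu hcnt]
  have h1 := walk_bound (fun k => i (k + 1)) u (3 * n) n hn hcnt ω hω hω1 hu
  have h2 : (∑ k ∈ range (3 * n), ω (i (k + 1)) * (tm (fun k => i (k + 1)) u k ^ 2
          + u (i (k + 1)) ^ 2 / 4)) / (n : ℝ)
      = ∑ a, ω a * (M (fun k => i (k + 1)) u (3 * n) n a + u a ^ 2 / 4) := by
    have h3 := group_M (fun k => i (k + 1)) u (3 * n) n ω
    have h4 := group_one (fun k => i (k + 1)) (3 * n) n hn hcnt (fun a => ω a * u a ^ 2 / 4)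
    have e1 : ∀ k ∈ range (3 * n), ω (i (k + 1)) * (tm (fun k => i (k + 1)) u k ^ 2
          + u (i (k + 1)) ^ 2 / 4)
        = ω (i (k + 1)) * tm (fun k => i (k + 1)) u k ^ 2 + ω (i (k + 1)) * u (i (k + 1)) ^ 2 / 4 := by
      intro k _
      ring
    have e2 : ∀ a ∈ (Finset.univ : Finset (Fin 3)),
        ω a * (M (fun k => i (k + 1)) u (3 * n) n a + u a ^ 2 / 4)
        = ω a * M (fun k => i (k + 1)) u (3 * n) n a + ω a * u a ^ 2 / 4 := by
      intro a _
      ring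
    rw [Finset.sum_congr rfl e1, Finset.sum_add_distrib, add_div, h3, h4,
      Finset.sum_congr rfl e2, Finset.sum_add_distrib]
  rw [h2, group_T (fun k => i (k + 1)) u (3 * n) n ω]
  exact h1

lemma block {A : Type*} [AddCommMonoid A] (n : ℕ) (F : ℕ → A) :
    ∑ k ∈ range (3 * n), F k = ∑ m ∈ range n, (F (3 * m) + F (3 * m + 1) + F (3 * m + 2)) := by
  induction n with
  | zero => simp
  | succ n ih =>
    have e : 3 * (n + 1) = 3 * n + 1 + 1 + 1 := by ring
    rw [e, Finset.sum_range_succ, Finset.sum_range_succ, Finset.sum_range_succ, ih,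
      Finset.sum_range_succ]
    simp only [add_assoc]

lemma cyc1 (m : ℕ) : cyc (3 * m + 1) = 1 := by
  apply Fin.ext
  show (3 * m + 1) % 3 = 1
  omega

lemma cyc2 (m : ℕ) : cyc (3 * m + 1 + 1) = 2 := by
  apply Fin.ext
  show (3 * m + 1 + 1) % 3 = 2
  omega

lemma cyc3 (m : ℕ) : cyc (3 * m + 2 + 1) = 0 := by
  apply Fin.ext
  show (3 * m + 2 + 1) % 3 = 0
  omega

lemma cyc_arr (n : ℕ) : IsArrangement n cyc := by
  refine ⟨?_, ?_⟩
  · apply Fin.ext
    show 0 % 3 = (3 * n) % 3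
    omega
  · intro a
    rw [Finset.card_filter, sum_Icc_shift, block]
    have : ∀ m ∈ range n, ((if cyc (3 * m + 1) = a then 1 else 0)
        + (if cyc (3 * m + 1 + 1) = a then 1 else 0)
        + (if cyc (3 * m + 2 + 1) = a then 1 else 0)) = 1 := by
      intro m _
      rw [cyc1, cyc2, cyc3]
      fin_cases a <;> rfl
    rw [Finset.sum_congr rfl this]
    simp

/-- the energy of the cyclic arrangement for one charge vector -/
lemma value_one (n : ℕ) (hn : 0 < n) (ω : Fin 3 → ℝ) (hω : ∀ a, 0 < ω a) (hω1 : ∑ a, ω a = 1)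
    (u : Fin 3 → ℝ) (hu : ∑ a, u a = 0) :
    ∑ k ∈ Icc 1 (3 * n), ∑ m ∈ Icc 1 (3 * n),
      u (cyc k) * u (cyc m) * G (pos n ω cyc k) (pos n ω cyc m) = K u ω := by
  have hn0 : (0 : ℝ) < n := by exact_mod_cast hn
  have hcnt := cnt_of_arr n cyc (cyc_arr n)
  rw [energy_walk n hn ω hω cyc u hu hcnt]
  have hS0 : ∀ m, S (fun k => cyc (k + 1)) u (3 * m) = 0 := by
    intro m
    rw [S, block]
    refine Finset.sum_eq_zero fun m _ => ?_
    simp only [cyc1, cyc2, cyc3]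
    rw [Fin.sum_univ_three] at hu
    linarith
  have hS1 : ∀ m, S (fun k => cyc (k + 1)) u (3 * m + 1) = u 1 := by
    intro m
    rw [S_succ, hS0]
    simp only [cyc1, zero_add]
  have hS2 : ∀ m, S (fun k => cyc (k + 1)) u (3 * m + 2) = u 1 + u 2 := by
    intro m
    have : 3 * m + 2 = 3 * m + 1 + 1 := by ring
    rw [this, S_succ, hS1]
    simp only [cyc2]
  rw [block, block]
  have e1 : ∀ m ∈ range n, (ω (cyc (3 * m + 1)) * (tm (fun k => cyc (k + 1)) u (3 * m) ^ 2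
          + u (cyc (3 * m + 1)) ^ 2 / 4)
      + ω (cyc (3 * m + 1 + 1)) * (tm (fun k => cyc (k + 1)) u (3 * m + 1) ^ 2
          + u (cyc (3 * m + 1 + 1)) ^ 2 / 4)
      + ω (cyc (3 * m + 2 + 1)) * (tm (fun k => cyc (k + 1)) u (3 * m + 2) ^ 2
          + u (cyc (3 * m + 2 + 1)) ^ 2 / 4))
      = ω 1 * ((u 1 / 2) ^ 2 + u 1 ^ 2 / 4) + ω 2 * ((u 1 + u 2 / 2) ^ 2 + u 2 ^ 2 / 4)
        + ω 0 * ((u 1 + u 2 + u 0 / 2) ^ 2 + u 0 ^ 2 / 4) := by
    intro m _
    simp only [tm, hS0, hS1, hS2, cyc1, cyc2, cyc3, zero_add]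
  have e2 : ∀ m ∈ range n, (ω (cyc (3 * m + 1)) * tm (fun k => cyc (k + 1)) u (3 * m)
      + ω (cyc (3 * m + 1 + 1)) * tm (fun k => cyc (k + 1)) u (3 * m + 1)
      + ω (cyc (3 * m + 2 + 1)) * tm (fun k => cyc (k + 1)) u (3 * m + 2))
      = ω 1 * (u 1 / 2) + ω 2 * (u 1 + u 2 / 2) + ω 0 * (u 1 + u 2 + u 0 / 2) := by
    intro m _
    simp only [tm, hS0, hS1, hS2, cyc1, cyc2, cyc3, zero_add]
  rw [Finset.sum_congr rfl e1, Finset.sum_congr rfl e2, Finset.sum_const, Finset.sum_const,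
    Finset.card_range, nsmul_eq_mul, nsmul_eq_mul, mul_div_cancel_left₀ _ hn0.ne',
    mul_div_cancel_left₀ _ hn0.ne', K]
  simp only [Fin.sum_univ_three] at hu hω1 ⊢
  have e3 : u 2 = -u 0 - u 1 := by linarith
  have e4 : ω 2 = 1 - ω 0 - ω 1 := by linarith
  rw [e3, e4]
  ring

/-- **MP_c8d2d2_an, Q1.** The cyclic arrangement minimises the energy, for every `n ≥ 1`, every
admissible matrix and all weights. -/
theorem result (n : ℕ) (hn : 1 ≤ n) (ω : Fin 3 → ℝ) (hω : ∀ a, 0 < ω a) (hω1 : ∑ a, ω a = 1)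
    (f : Matrix (Fin 3) (Fin 3) ℝ) (hf : f.PosSemidef) (hf0 : ∀ a, ∑ c, f a c = 0) :
    IsArrangement n cyc ∧ ∀ i : ℕ → Fin 3, IsArrangement n i → U n ω f cyc ≤ U n ω f i := by
  refine ⟨cyc_arr n, ?_⟩
  intro i hi
  obtain ⟨r, v, hv⟩ := Matrix.posSemidef_iff_eq_sum_vecMulVec.mp hf
  have hfe : ∀ a c, f a c = ∑ s, v s a * v s c := by
    intro a c
    rw [hv, Matrix.sum_apply]
    refine Finset.sum_congr rfl fun s _ => ?_
    simp [Matrix.vecMulVec_apply]
  have hv0 : ∀ s, ∑ a, v s a = 0 := by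
    have h1 : ∑ s, (∑ a, v s a) ^ 2 = 0 := by
      have h2 : ∑ a, ∑ c, f a c = 0 := Finset.sum_eq_zero fun a _ => hf0 a
      rw [← h2]
      have h3 : ∀ s ∈ (Finset.univ : Finset (Fin r)), (∑ a, v s a) ^ 2
          = ∑ a, ∑ c, v s a * v s c := by
        intro s _
        rw [sq, Finset.sum_mul_sum]
      rw [Finset.sum_congr rfl h3, Finset.sum_comm]
      refine Finset.sum_congr rfl fun a _ => ?_
      rw [Finset.sum_comm]
      refine Finset.sum_congr rfl fun c _ => ?_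
      rw [hfe]
    intro s
    have h4 := (Finset.sum_eq_zero_iff_of_nonneg (fun s _ => sq_nonneg (∑ a, v s a))).mp h1 s
      (Finset.mem_univ s)
    exact pow_eq_zero_iff (two_ne_zero) |>.mp h4
  have hU : ∀ j : ℕ → Fin 3, U n ω f j = 1 / 2 * ∑ s, ∑ k ∈ Icc 1 (3 * n), ∑ m ∈ Icc 1 (3 * n),
      v s (j k) * v s (j m) * G (pos n ω j k) (pos n ω j m) := by
    intro j
    rw [U]
    have h1 : ∑ k ∈ Icc 1 (3 * n), ∑ m ∈ Icc 1 (3 * n),
        f (j k) (j m) * G (pos n ω j k) (pos n ω j m)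
        = ∑ s, ∑ k ∈ Icc 1 (3 * n), ∑ m ∈ Icc 1 (3 * n),
          v s (j k) * v s (j m) * G (pos n ω j k) (pos n ω j m) := by
      rw [Finset.sum_comm]
      rw [Finset.sum_comm (s := (Finset.univ : Finset (Fin r)))]
      rw [Finset.sum_comm]
      refine Finset.sum_congr rfl fun k _ => ?_
      rw [Finset.sum_comm]
      refine Finset.sum_congr rfl fun m _ => ?_
      rw [hfe, Finset.sum_mul]
    rw [h1]
  rw [hU, hU]
  apply mul_le_mul_of_nonneg_left _ (by norm_num)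
  apply Finset.sum_le_sum
  intro s _
  rw [value_one n hn ω hω hω1 (v s) (hv0 s)]
  exact bound_one n hn ω hω hω1 i hi (v s) (hv0 s)

end Pool.Agent.Results.MP_c8d2d2_an.Cyclic
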